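import Pool.Agent.Work.MP_0b08b2_co.Main

set_option autoImplicit false

namespace Pool.Agent.Work.MP_0b08b2_co.Parked.LargeGirth

/-- There is a constant `g` such that every finite simple graph of maximum degree at most 3 all of
whose cycles have length at least `g` has a total colouring with 4 colours. -/
theorem result :
    ∃ g : ℕ, ∀ (n : ℕ) (G : SimpleGraph (Fin n)),
      (∀ v, (G.neighborSet v).ncard ≤ 3) →
      (∀ u (p : G.Walk u u), p.IsCycle → g ≤ p.length) →
      ∃ (f : Fin n → Fin 4) (c : Fin n → Fin n → Fin 4), (∀ u v, c u v = c v u) ∧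
        (∀ u v, G.Adj u v → f u ≠ f v) ∧ (∀ u v, G.Adj u v → c u v ≠ f u) ∧
        ∀ u v w, G.Adj u v → G.Adj u w → v ≠ w → c u v ≠ c u w := by
  obtain ⟨g, hg⟩ := Pool.Agent.TC.main
  exact ⟨g, fun n G h1 h2 => hg (Fin n) G h1 h2⟩

end Pool.Agent.Work.MP_0b08b2_co.Parked.LargeGirth
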